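import Pool.Agent.helper59.FI4.SpecI

set_option autoImplicit false

/-! MP_baa4d7, project FI4, row TRT: the group `TT` in the type `N`. -/

namespace Pool.Agent.FI4I

open Pool.Agent.helper58.DC Pool.Agent.DI Pool.Agent.GR Pool.Agent.OB Pool.Agent.DR Pool.Agent.FI Pool.Agent.FI3 Pool.Agent.FI4

theorem TRT (hTR2 : TR2_stmt) (hTR3 : TR3_stmt) : TRT_stmt := by
  intro G _ _ M D N hDN hcN θ hθ
  obtain ⟨_, h2, _, h4⟩ := hTR2 G M N
  obtain ⟨h3, _⟩ := hTR3 2 G N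
  obtain ⟨e1, e2⟩ := h3 D hDN
  have hv : ∀ x, x ∉ N → θ x = 0 := fun x hx => hθ.1 x fun h => hx (hcN h)
  have hvf : ∀ n : N, ∀ x, x ∉ N → funMap (MulAut.conj (n : G)) θ x = 0 := by
    intro n x hx
    change θ ((MulAut.conj (n : G))⁻¹ x) = 0
    apply hv
    intro h
    apply hx
    have h5 : (MulAut.conj (n : G))⁻¹ x = (n : G)⁻¹ * x * (n : G) := MulAut.conj_inv_apply _ _
    rw [h5] at h
    have h6 := N.mul_mem (N.mul_mem n.2 h) (N.inv_mem n.2)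
    have h7 : (n : G) * ((n : G)⁻¹ * x * (n : G)) * (n : G)⁻¹ = x := by group
    rwa [h7] at h6
  ext n
  rw [Subgroup.mem_subgroupOf]
  change (n ∈ nz (D.subgroupOf N) ∧
      SB M (cz (D.subgroupOf N)) (funMap (MulAut.conj n) (rN N θ)) (rN N θ)) ↔
    ((n : G) ∈ nz D ∧ SB M (cz D) (funMap (MulAut.conj (n : G)) θ) θ)
  rw [e1, e2, h4 n θ, Subgroup.mem_subgroupOf,
    h2 (cz D) hcN (funMap (MulAut.conj (n : G)) θ) θ (hvf n) hv]

end Pool.Agent.FI4I
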